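import Mathlib
import Pool.Agent.Q84.OpF

/-!
# The decay condition cannot be dropped: an operator-valued multiplier `m : ℝ → 𝓛(ℓ⁴, ℂ)` with
`R`-bounded range and uniformly bounded (1-)variation on all dyadic intervals for which `T_m` is
not bounded from `L⁴(ℝ; ℓ⁴)` to `L⁴(ℝ; ℂ)`.
-/

set_option autoImplicit false

namespace Pool.Agent.Results.MP_e4fca8_an.NoDecayFails

open MeasureTheory Set
open scoped ENNReal NNReal FourierTransform SchwartzMap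

/-- the dyadic partition `{±[2^k, 2^(k+1)) : k ∈ ℤ}` -/
def Dyadic : Set (Set ℝ) :=
  {J | ∃ k : ℤ, J = Ico ((2 : ℝ) ^ k) (2 ^ (k + 1)) ∨ J = {ξ | -ξ ∈ Ico ((2 : ℝ) ^ k) (2 ^ (k + 1))}}

/-- the sign of a Boolean -/
noncomputable def sg (b : Bool) : ℂ := if b then 1 else -1

/-- expectation over `N` independent fair signs -/
noncomputable def avg (N : ℕ) (g : (Fin N → Bool) → ℝ) : ℝ := (2 ^ N : ℝ)⁻¹ * ∑ ε, g ε

/-- `R`-boundedness of a set of operators -/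
def RBounded {E F : Type*} [NormedAddCommGroup E] [NormedSpace ℂ E] [NormedAddCommGroup F]
    [NormedSpace ℂ F] (T : Set (E →L[ℂ] F)) : Prop :=
  ∃ C : ℝ, ∀ (N : ℕ) (S : Fin N → (E →L[ℂ] F)) (x : Fin N → E), (∀ n, S n ∈ T) →
    avg N (fun ε => ‖∑ n, sg (ε n) • S n (x n)‖) ≤ C * avg N (fun ε => ‖∑ n, sg (ε n) • x n‖)

/-- `T_m f = 𝓕⁻¹ (m · 𝓕 f)` for a vector-valued Schwartz function `f` -/
noncomputable def FM {E F : Type*} [NormedAddCommGroup E] [NormedSpace ℂ E] [NormedAddCommGroup F]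
    [NormedSpace ℂ F] (m : ℝ → E →L[ℂ] F) (f : 𝓢(ℝ, E)) : ℝ → F :=
  𝓕⁻ (fun ξ => m ξ (𝓕 (f : ℝ → E) ξ))

/-- `T_m` is bounded from `L^p(ℝ; E)` to `L^p(ℝ; F)`, tested on Schwartz functions -/
def FMBounded {E F : Type*} [NormedAddCommGroup E] [NormedSpace ℂ E] [NormedAddCommGroup F]
    [NormedSpace ℂ F] (p : ℝ≥0∞) (m : ℝ → E →L[ℂ] F) : Prop :=
  ∃ C : ℝ≥0, ∀ f : 𝓢(ℝ, E), eLpNorm (FM m f) p volume ≤ C * eLpNorm f p volume

/-- a counterexample `m : ℝ → 𝓛(E, F)` on `L^p`, with variation at most `2` on dyadic intervals -/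
def Counterexample (E F : Type*) [NormedAddCommGroup E] [NormedSpace ℂ E] [NormedAddCommGroup F]
    [NormedSpace ℂ F] (p : ℝ≥0∞) : Prop :=
  ∃ m : ℝ → E →L[ℂ] F, StronglyMeasurable m ∧ RBounded (Set.range m) ∧
    (∀ J ∈ Dyadic, eVariationOn m J ≤ 2) ∧ ¬ FMBounded p m

/-- `lp` with exponent `4` is a normed space -/
instance fact4 : Fact ((1 : ℝ≥0∞) ≤ 4) := ⟨by norm_num⟩

/-- **Counterexample** with `X = ℓ⁴`, `Y = ℂ`, `s = 1`, `p = 4`. -/
theorem result : Counterexample (lp (fun _ : ℕ => ℂ) 4) ℂ 4 :=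
  ⟨Pool.Agent.Q84.OpM.mul, Pool.Agent.Q84.OpM.mul_stronglyMeasurable,
    Pool.Agent.Q84.OpM.rbounded, Pool.Agent.Q84.OpM.variation_bound,
    Pool.Agent.Q84.OpF.unbounded⟩

end Pool.Agent.Results.MP_e4fca8_an.NoDecayFails
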